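import Pool.Agent.Helper76.CV.Goals

open scoped ContDiff
open Filter Topology

namespace Pool.Agent.Helper2.CV.WF1

open Pool.Agent.Helper76.CV (W)

theorem smooth : ContDiff ℝ ∞ W := by
  have h : ContDiff ℝ ∞ (fun w : ℝ => w * expNegInvGlue (1000 * w)) :=
    contDiff_id.mul ((expNegInvGlue.contDiff (n := ⊤)).comp (contDiff_const.mul contDiff_id))
  exact h

theorem zero_on (w : ℝ) (hw : w ≤ 0) : W w = 0 := by
  unfold W
  rw [expNegInvGlue.zero_of_nonpos (by linarith), mul_zero]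

/-- A continuous function which is `0` on `w < 0` is `0` on `w ≤ 0`. -/
theorem ext0 (f : ℝ → ℝ) (hf : Continuous f) (h0 : ∀ w < 0, f w = 0) (w : ℝ) (hw : w ≤ 0) : f w = 0 := by
  have h1 : IsClosed {w | f w = 0} := isClosed_eq hf continuous_const
  have h2 : Set.Iio (0 : ℝ) ⊆ {w | f w = 0} := fun w hw => h0 w hw
  have h3 := h1.closure_subset_iff.mpr h2
  rw [closure_Iio] at h3
  exact h3 hw

theorem cont1 : Continuous (deriv W) := by
  have := (ContDiff.iterate_deriv 1 smooth).continuous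
  simpa using this

theorem cont2 : Continuous (deriv (deriv W)) := by
  have := (ContDiff.iterate_deriv 2 smooth).continuous
  simpa using this

theorem d1_neg (w : ℝ) (hw : w < 0) : deriv W w = 0 := by
  have h : W =ᶠ[𝓝 w] fun _ => 0 := by
    filter_upwards [Iio_mem_nhds hw] with u hu
    exact zero_on u (le_of_lt hu)
  rw [h.deriv_eq]
  simp

theorem d2_neg (w : ℝ) (hw : w < 0) : deriv (deriv W) w = 0 := by
  have h : deriv W =ᶠ[𝓝 w] fun _ => 0 := by
    filter_upwards [Iio_mem_nhds hw] with u hu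
    exact d1_neg u hu
  rw [h.deriv_eq]
  simp

theorem pos_on (w : ℝ) (hw : 0 < w) : W w = w * Real.exp (-(1 / (1000 * w))) := by
  unfold W expNegInvGlue
  rw [if_neg (by linarith), one_div]

theorem hx (w : ℝ) (hw : 0 < w) :
    HasDerivAt (fun u : ℝ => 1 / (1000 * u)) (-(1000 * (1 / (1000 * w)) ^ 2)) w := by
  have h1 : HasDerivAt (fun u : ℝ => 1000 * u) 1000 w := by
    simpa using (hasDerivAt_id w).const_mul (1000 : ℝ)
  have h2 := h1.inv (by positivity)
  have h3 : (fun u : ℝ => 1 / (1000 * u)) = (fun u : ℝ => 1000 * u)⁻¹ := by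
    funext u; simp [one_div]
  rw [h3]
  have h4 : -(1000 * (1 / (1000 * w)) ^ 2) = -1000 / (1000 * w) ^ 2 := by
    field_simp
  rw [h4]
  exact h2

theorem he (w : ℝ) (hw : 0 < w) :
    HasDerivAt (fun u : ℝ => Real.exp (-(1 / (1000 * u))))
      (Real.exp (-(1 / (1000 * w))) * (1000 * (1 / (1000 * w)) ^ 2)) w := by
  have := (hx w hw).neg.exp
  simpa using this

theorem d1_pos (w : ℝ) (hw : 0 < w) :
    deriv W w = Real.exp (-(1 / (1000 * w))) * (1 + 1 / (1000 * w)) := by
  have h : W =ᶠ[𝓝 w] fun u => u * Real.exp (-(1 / (1000 * u))) := by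
    filter_upwards [Ioi_mem_nhds hw] with u hu
    exact pos_on u hu
  rw [h.deriv_eq]
  have h2 := (hasDerivAt_id w).mul (he w hw)
  have h3 : HasDerivAt (fun u : ℝ => u * Real.exp (-(1 / (1000 * u)))) _ w := h2
  rw [h3.deriv]
  simp only [id]
  field_simp

theorem d2_pos (w : ℝ) (hw : 0 < w) :
    deriv (deriv W) w = 1000 * (1 / (1000 * w)) ^ 3 * Real.exp (-(1 / (1000 * w))) := by
  have h : deriv W =ᶠ[𝓝 w] fun u => Real.exp (-(1 / (1000 * u))) * (1 + 1 / (1000 * u)) := by
    filter_upwards [Ioi_mem_nhds hw] with u hu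
    exact d1_pos u hu
  rw [h.deriv_eq]
  have h2 := (he w hw).mul ((hx w hw).const_add 1)
  have h3 : HasDerivAt (fun u : ℝ => Real.exp (-(1 / (1000 * u))) * (1 + 1 / (1000 * u))) _ w := h2
  rw [h3.deriv]
  ring

theorem t : Pool.Agent.Helper76.CV.WF1 := by
  refine ⟨smooth, ?_, ?_, ?_⟩
  · intro w
    rcases le_or_gt w 0 with hw | hw
    · rw [zero_on w hw]
    · rw [pos_on w hw]; positivity
  · intro w hw
    exact ⟨zero_on w hw, ext0 _ cont1 d1_neg w hw, ext0 _ cont2 d2_neg w hw⟩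
  · intro w hw
    exact ⟨pos_on w hw, d1_pos w hw, d2_pos w hw⟩

end Pool.Agent.Helper2.CV.WF1
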